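import Pool.Agent.Helper44.KC.Defs

/-!
# Ten residues with odd heights: sums of two and three multiples
-/

set_option autoImplicit false

open Finset

namespace Pool.Agent.Helper44.KC

section

variable {r : ℕ} [hr : Fact r.Prime] {x : Fin 10 → ZMod r}

theorem val_pos' {y : ZMod r} (hy : y ≠ 0) : 0 < y.val :=
  Nat.pos_of_ne_zero (by rwa [ne_eq, ZMod.val_eq_zero])

theorem B_lt (hx : Odds x) {h : ZMod r} (hh : h ≠ 0) (i : Fin 10) : |B x h i| < r := by
  have h1 := val_pos' (mul_ne_zero hh (hx.ne i))
  have h2 := ZMod.val_lt (h * x i)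
  rw [B, abs_lt]
  constructor <;> omega

theorem B_ne (hr2 : r ≠ 2) (h : ZMod r) (i : Fin 10) : B x h i ≠ 0 := by
  have h1 := (hr.out.eq_two_or_odd').resolve_left hr2
  obtain ⟨k, hk⟩ := h1
  rw [B]
  omega

theorem B_neg (hx : Odds x) {h : ZMod r} (hh : h ≠ 0) (i : Fin 10) : B x (-h) i = -B x h i := by
  have h0 := mul_ne_zero hh (hx.ne i)
  have : NeZero (h * x i) := ⟨h0⟩
  have h2 := ZMod.val_lt (h * x i)
  rw [B, B, neg_mul, ZMod.val_neg_of_ne_zero (h * x i)]
  omega

theorem B_sign (hx : Odds x) {h : ZMod r} (hh : h ≠ 0) (i : Fin 10) {e : ℤ} (he : e = 1 ∨ e = -1) :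
    B x ((e : ZMod r) * h) i = e * B x h i := by
  rcases he with rfl | rfl
  · simp
  · rw [Int.cast_neg, Int.cast_one, neg_one_mul, B_neg hx hh]
    ring

theorem B_two (hx : Odds x) {h : ZMod r} (hh : h ≠ 0) (i : Fin 10) :
    (0 < B x h i ∧ B x (2 * h) i = 2 * B x h i - r) ∨
      (B x h i < 0 ∧ B x (2 * h) i = 2 * B x h i + r) ∨ B x h i = 0 := by
  have h0 := val_pos' (mul_ne_zero hh (hx.ne i))
  have h2 := ZMod.val_lt (h * x i)
  have e : 2 * h * x i = h * x i + h * x i := by ring
  simp only [B, e]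
  rcases lt_trichotomy (2 * (h * x i).val) r with h1 | h1 | h1
  · left
    rw [ZMod.val_add_of_lt (by omega)]
    constructor <;> omega
  · right
    right
    omega
  · right
    left
    have h3 := ZMod.val_add_val_of_le (a := h * x i) (b := h * x i) (by omega)
    constructor <;> omega

/-- the sum of the values -/
theorem height_dvd (hx : Odds x) (h : ZMod r) : r ∣ ∑ i, (h * x i).val := by
  have h1 := hx.rel 0
  have h2 : ∑ i, x i = 0 := by
    rw [← h1]
    refine sum_congr rfl fun i _ => ?_
    have : E 0 i = 1 := by fin_cases i <;> rfl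
    rw [this]
    simp
  rw [← ZMod.natCast_eq_zero_iff, Nat.cast_sum]
  simp only [ZMod.natCast_zmod_val]
  rw [← mul_sum, h2, mul_zero]

theorem height_eq_mul (hx : Odds x) {h : ZMod r} (hh : h ≠ 0) :
    ∃ k : ℕ, Odd k ∧ ∑ i, (h * x i).val = r * k := by
  obtain ⟨k, hk⟩ := height_dvd hx h
  refine ⟨k, ?_, hk⟩
  have h1 := hx.odd h hh
  rwa [hk, Nat.mul_div_cancel_left k hr.out.pos] at h1

/-- the number of carries of a sum of two multiples is odd -/
theorem odd_pair (hx : Odds x) {u v : ZMod r} (hu : u ≠ 0) (hv : v ≠ 0)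
    (huv : u + v ≠ 0) : Odd #{i : Fin 10 | B x u i + B x v i < 0} := by
  obtain ⟨k1, o1, h1⟩ := height_eq_mul hx hu
  obtain ⟨k2, o2, h2⟩ := height_eq_mul hx hv
  obtain ⟨k3, o3, h3⟩ := height_eq_mul hx huv
  have key : ∀ i, ((u + v) * x i).val + r * (if B x u i + B x v i < 0 then 1 else 0) =
      (u * x i).val + (v * x i).val := by
    intro i
    have a1 := ZMod.val_lt (u * x i)
    have a2 := ZMod.val_lt (v * x i)
    have a3 : (u * x i).val + (v * x i).val ≠ r := by
      intro h
      have h' := congrArg (Nat.cast : ℕ → ZMod r) h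
      rw [Nat.cast_add, ZMod.natCast_zmod_val, ZMod.natCast_zmod_val, ZMod.natCast_self,
        ← add_mul] at h'
      exact mul_ne_zero huv (hx.ne i) h'
    rw [add_mul]
    by_cases h : (u * x i).val + (v * x i).val < r
    · rw [ZMod.val_add_of_lt h, if_neg (by simp only [B]; omega)]
      omega
    · have h4 := ZMod.val_add_val_of_le (a := u * x i) (b := v * x i) (by omega)
      rw [if_pos (by simp only [B]; omega)]
      omega
  have h4 : ∑ i, ((u + v) * x i).val + r * #{i : Fin 10 | B x u i + B x v i < 0} =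
      ∑ i, (u * x i).val + ∑ i, (v * x i).val := by
    rw [card_filter, mul_sum, ← sum_add_distrib, ← sum_add_distrib]
    exact sum_congr rfl fun i _ => key i
  rw [h1, h2, h3, ← mul_add, ← mul_add] at h4
  have h5 := Nat.eq_of_mul_eq_mul_left hr.out.pos h4
  have h6 : Even (k3 + #{i : Fin 10 | B x u i + B x v i < 0}) := by
    rw [h5]
    exact o1.add_odd o2
  rw [Nat.even_add] at h6
  rw [← Nat.not_even_iff_odd] at o3 ⊢
  exact fun h => o3 (h6.2 h)

theorem val_three (a b c : ZMod r) :
    (a + b + c).val + r * ((a.val + b.val + c.val) / r) = a.val + b.val + c.val := by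
  have h1 : (a + b + c).val = (a.val + b.val + c.val) % r := by
    have : a + b + c = ((a.val + b.val + c.val : ℕ) : ZMod r) := by
      push_cast
      rw [ZMod.natCast_zmod_val, ZMod.natCast_zmod_val, ZMod.natCast_zmod_val]
    rw [this, ZMod.val_natCast]
  rw [h1]
  exact Nat.mod_add_div _ _

/-- the same for the sum of three multiples -/
theorem even_triple (hx : Odds x) {u v w : ZMod r} (hu : u ≠ 0) (hv : v ≠ 0)
    (hw : w ≠ 0) (huv : u + v + w ≠ 0) :
    Even #{i : Fin 10 | (r : ℤ) < |B x u i + B x v i + B x w i|} := by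
  obtain ⟨k1, o1, h1⟩ := height_eq_mul hx hu
  obtain ⟨k2, o2, h2⟩ := height_eq_mul hx hv
  obtain ⟨k3, o3, h3⟩ := height_eq_mul hx hw
  obtain ⟨k4, o4, h4⟩ := height_eq_mul hx huv
  set c : Fin 10 → ℕ := fun i => ((u * x i).val + (v * x i).val + (w * x i).val) / r with hc
  have key : ∀ i, ((u + v + w) * x i).val + r * c i =
      (u * x i).val + (v * x i).val + (w * x i).val := by
    intro i
    rw [add_mul, add_mul]
    exact val_three _ _ _
  have h5 : ∑ i, ((u + v + w) * x i).val + r * ∑ i, c i =
      ∑ i, (u * x i).val + ∑ i, (v * x i).val + ∑ i, (w * x i).val := by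
    rw [mul_sum, ← sum_add_distrib, ← sum_add_distrib, ← sum_add_distrib]
    exact sum_congr rfl fun i _ => key i
  rw [h1, h2, h3, h4, ← mul_add, ← mul_add, ← mul_add] at h5
  have h6 := Nat.eq_of_mul_eq_mul_left hr.out.pos h5
  have h7 : Even (∑ i, c i) := by
    have : Odd (k4 + ∑ i, c i) := by
      rw [h6]
      exact (o1.add_odd o2).add_odd o3
    rw [Nat.odd_add] at this
    exact this.1 o4
  have h8 : ∀ i, ((c i + (if (r : ℤ) < |B x u i + B x v i + B x w i| then 1 else 0) : ℕ) : ZMod 2) =
      1 := by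
    intro i
    have a1 := ZMod.val_lt (u * x i)
    have a2 := ZMod.val_lt (v * x i)
    have a3 := ZMod.val_lt (w * x i)
    have a4 := val_pos' (mul_ne_zero huv (hx.ne i))
    have a5 := ZMod.val_lt ((u + v + w) * x i)
    have a6 := key i
    have hc3 : c i = 0 ∨ c i = 1 ∨ c i = 2 := by
      have : c i < 3 := by
        rw [hc]
        exact Nat.div_lt_of_lt_mul (by omega)
      omega
    rcases hc3 with h | h | h
    · rw [h, if_pos]
      · rfl
      · rw [h] at a6
        rw [lt_abs]
        left
        simp only [B]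
        omega
    · rw [h, if_neg]
      · rfl
      · rw [h] at a6
        rw [not_lt, abs_le]
        simp only [B]
        constructor <;> omega
    · rw [h, if_pos]
      · rfl
      · rw [h] at a6
        rw [lt_abs]
        right
        simp only [B]
        omega
  have h9 : ((∑ i, c i + #{i : Fin 10 | (r : ℤ) < |B x u i + B x v i + B x w i|} : ℕ) : ZMod 2) =
      0 := by
    rw [card_filter, ← sum_add_distrib, Nat.cast_sum, sum_congr rfl fun i _ => h8 i]
    rfl
  rw [ZMod.natCast_eq_zero_iff_even, Nat.even_add] at h9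
  exact h9.1 h7

/-- if the sum of three multiples is zero then the three centred residues have sum `r` or `-r` -/
theorem triple_zero (hx : Odds x) {u v w : ZMod r} (hu : u ≠ 0)
    (huv : u + v + w = 0) (i : Fin 10) (hv : v ≠ 0) (hw : w ≠ 0) :
    |B x u i + B x v i + B x w i| = r := by
  have a1 := ZMod.val_lt (u * x i)
  have a2 := ZMod.val_lt (v * x i)
  have a3 := ZMod.val_lt (w * x i)
  have b1 := val_pos' (mul_ne_zero hu (hx.ne i))
  have b2 := val_pos' (mul_ne_zero hv (hx.ne i))
  have b3 := val_pos' (mul_ne_zero hw (hx.ne i))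
  have h := val_three (u * x i) (v * x i) (w * x i)
  rw [← add_mul, ← add_mul, huv, zero_mul, ZMod.val_zero, zero_add] at h
  have h1 : ((u * x i).val + (v * x i).val + (w * x i).val) / r < 3 :=
    Nat.div_lt_of_lt_mul (by omega)
  generalize ((u * x i).val + (v * x i).val + (w * x i).val) / r = c at h h1
  have hc : c = 1 ∨ c = 2 := by
    have h2 : c ≠ 0 := by
      intro h0
      rw [h0] at h
      omega
    omega
  rcases hc with hc | hc
  · rw [hc] at h
    rw [abs_eq (by positivity)]
    left
    simp only [B]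
    omega
  · rw [hc] at h
    rw [abs_eq (by positivity)]
    right
    simp only [B]
    omega

theorem pair_zero (hx : Odds x) {u v : ZMod r} (hu : u ≠ 0) (i : Fin 10)
    (h : u + v = 0) : B x u i + B x v i = 0 := by
  have h1 : v = -u := by linear_combination h
  rw [h1, B_neg hx hu]
  ring

theorem add_eq_zero_of_pair (hx : Odds x) {u v : ZMod r} {i : Fin 10}
    (h : B x u i + B x v i = 0) : u + v = 0 := by
  by_contra huv
  have h1 : (u * x i).val + (v * x i).val = r := by
    simp only [B] at h
    omega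
  have h' := congrArg (Nat.cast : ℕ → ZMod r) h1
  rw [Nat.cast_add, ZMod.natCast_zmod_val, ZMod.natCast_zmod_val, ZMod.natCast_self,
    ← add_mul] at h'
  exact mul_ne_zero huv (hx.ne i) h'

end

end Pool.Agent.Helper44.KC
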