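import Mathlib

/-!
# Ten residues with odd heights: definitions

Six of the `64` forms `± x 0 ± ... ± x 9` vanish on the residues of a quadrilateral cover (the rows
of `E`); the sign vectors orthogonal to the rows of `E` are the columns of `W` up to the sign.
-/

set_option autoImplicit false

open Finset

namespace Pool.Agent.Helper44.KC

/-- the six linear relations with coefficients `1` and `-1` between the ten residues -/
def E : Fin 6 → Fin 10 → ℤ :=
  ![![1, 1, 1, 1, 1, 1, 1, 1, 1, 1], ![1, 1, -1, -1, 1, 1, -1, -1, -1, -1],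
    ![1, -1, 1, -1, -1, -1, -1, -1, 1, 1], ![-1, 1, -1, 1, -1, -1, -1, 1, -1, 1],
    ![-1, -1, 1, 1, 1, -1, 1, -1, -1, -1], ![-1, -1, -1, -1, -1, 1, 1, 1, 1, -1]]

/-- the ten splittings of six symbols into three and three, with signs -/
def W : Fin 10 → Fin 6 → ℤ :=
  ![![1, 1, 1, -1, -1, -1], ![1, -1, -1, 1, 1, -1], ![1, -1, -1, 1, -1, 1],
    ![-1, 1, 1, 1, -1, -1], ![-1, 1, -1, -1, 1, 1], ![-1, -1, 1, 1, -1, 1],
    ![1, -1, 1, -1, 1, -1], ![1, 1, -1, -1, -1, 1], ![-1, 1, -1, 1, 1, -1],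
    ![-1, -1, 1, -1, 1, 1]]

section

variable {r : ℕ}

/-- the centred residue of `h * x i`, an odd integer between `-r` and `r` -/
def B (x : Fin 10 → ZMod r) (h : ZMod r) (i : Fin 10) : ℤ := r - 2 * ((h * x i).val : ℤ)

/-- the six forms -/
def D (x : Fin 10 → ZMod r) (h : ZMod r) (j : Fin 6) : ℤ := ∑ i, E j i * B x h i

/-- Ten nonzero residues with the six relations such that all the heights are odd. -/
structure Odds (x : Fin 10 → ZMod r) : Prop where
  rel : ∀ j, ∑ i, (E j i : ZMod r) * x i = 0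
  ne : ∀ i, x i ≠ 0
  odd : ∀ h : ZMod r, h ≠ 0 → Odd ((∑ i, (h * x i).val) / r)

end

end Pool.Agent.Helper44.KC
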