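import Pool.Agent.Helper44.KC.Basic

/-!
# Ten residues with odd heights: the sign vectors of an orbit without forms
-/

set_option autoImplicit false

open Finset

namespace Pool.Agent.Helper44.KC

/-- the sign of a Boolean -/
def sb (b : Bool) : ℤ := if b then 1 else -1

theorem dict_table : ∀ b0 b1 b2 b3 b4 b5 b6 b7 b8 b9 : Bool,
    (∀ j : Fin 6, ∑ i, E j i * sb (![b0, b1, b2, b3, b4, b5, b6, b7, b8, b9] i) = 0) →
      ∃ (p : Fin 6) (b : Bool), ∀ i,
        sb (![b0, b1, b2, b3, b4, b5, b6, b7, b8, b9] i) = sb b * W i p := by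
  decide +kernel

theorem dict (f : Fin 10 → ℤ) (hf : ∀ i, f i = 1 ∨ f i = -1) (h : ∀ j, ∑ i, E j i * f i = 0) :
    ∃ (s : ℤ) (p : Fin 6), (s = 1 ∨ s = -1) ∧ ∀ i, f i = s * W i p := by
  have h1 : ∀ i, ∃ b : Bool, sb b = f i := by
    intro i
    rcases hf i with h | h
    · exact ⟨true, by rw [h]; rfl⟩
    · exact ⟨false, by rw [h]; rfl⟩
  choose b hb using h1
  have h2 : ∀ i, sb (![b 0, b 1, b 2, b 3, b 4, b 5, b 6, b 7, b 8, b 9] i) = f i := by
    intro i
    rw [← hb]
    fin_cases i <;> rfl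
  obtain ⟨p, c, hc⟩ := dict_table (b 0) (b 1) (b 2) (b 3) (b 4) (b 5) (b 6) (b 7) (b 8) (b 9)
    (fun j => by
      rw [← h j]
      exact sum_congr rfl fun i _ => by rw [h2])
  refine ⟨sb c, p, ?_, fun i => by rw [← h2, hc]⟩
  cases c
  · exact Or.inr rfl
  · exact Or.inl rfl

theorem W_sq : ∀ i a, W i a = 1 ∨ W i a = -1 := by decide

theorem W_five : ∀ a : Fin 6, #{i : Fin 10 | W i a = -1} = 5 := by decide

/-- the splitting with index `i`, normalised at the symbol `x` -/
def row (x : Fin 6) (i : Fin 10) : Fin 6 → Bool := fun a => decide (W i a = W i x)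

theorem row_injective : ∀ x : Fin 6, Function.Injective (row x) := by decide +kernel

end Pool.Agent.Helper44.KC
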