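import Pool.Agent.Helper44.KC.WordK

/-!
# Ten residues with odd heights: words in two symbols
-/

set_option autoImplicit false

open Finset

namespace Pool.Agent.Helper44.KC

section

variable {r : ℕ} [hr : Fact r.Prime] {x : Fin 10 → ZMod r}

theorem eq_of_B {h : ZMod r} (hh : h ≠ 0) {i i' : Fin 10} {e : ℤ} (he : e = 1 ∨ e = -1)
    (hB : B x h i = e * B x h i') : x i = (e : ZMod r) * x i' := by
  apply mul_left_cancel₀ hh
  rcases he with rfl | rfl
  · have h1 : (h * x i).val = (h * x i').val := by
      simp only [B] at hB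
      omega
    have h2 := ZMod.val_injective r h1
    rw [h2]
    push_cast
    ring
  · have h1 : (h * x i).val + (h * x i').val = r := by
      simp only [B] at hB
      omega
    have h2 := congrArg (Nat.cast : ℕ → ZMod r) h1
    rw [Nat.cast_add, ZMod.natCast_zmod_val, ZMod.natCast_zmod_val, ZMod.natCast_self] at h2
    push_cast
    linear_combination h2

theorem exists_ne (a : Fin 6) : ∃ b : Fin 6, a ≠ b := by
  revert a
  decide

/-- If the word of every orbit on which the forms vanish has only two symbols, then the residues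
are equal in two groups up to the sign. -/
theorem pairs_of (hr2 : r ≠ 2) (hx : Odds x) {h : ZMod r} (hh : h ≠ 0)
    (hD : ∀ n j, D x (2 ^ n * h) j = 0)
    (two : ∀ w : Pool.Agent.Helper41.KW.Word, ∃ a b : Fin 6, ∀ n, w.i n = a ∨ w.i n = b) :
    ∃ a b : Fin 6, a ≠ b ∧ ∀ i i', W i a * W i b = W i' a * W i' b →
      x i = ((W i a * W i' a : ℤ) : ZMod r) * x i' := by
  obtain ⟨w, hw⟩ := wordK_of hr2 hx hh hD
  obtain ⟨a, b, hab, h2⟩ : ∃ a b : Fin 6, a ≠ b ∧ ∀ n, w.i n = a ∨ w.i n = b := by
    obtain ⟨a, b, h2⟩ := two w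
    by_cases hab : a = b
    · obtain ⟨c, hc⟩ := exists_ne a
      refine ⟨a, c, hc, fun n => Or.inl ?_⟩
      rcases h2 n with h | h
      · exact h
      · rw [h, hab]
    · exact ⟨a, b, hab, h2⟩
  refine ⟨a, b, hab, fun i i' he => eq_of_B hh ?_ ?_⟩
  · rcases W_sq i a with h3 | h3 <;> rcases W_sq i' a with h4 | h4 <;> rw [h3, h4] <;> norm_num
  · set e : ℤ := W i a * W i' a with hE
    have hd : 0 < r - 1 := by
      have := hr.out.one_lt
      omega
    have hs : ∀ n, (B x (2 ^ n * h) i).sign = e * (B x (2 ^ n * h) i').sign := by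
      intro n
      rw [hw, hw, hE]
      have q1 : W i a * W i a = 1 := by rcases W_sq i a with h3 | h3 <;> rw [h3] <;> norm_num
      have q2 : W i' a * W i' a = 1 := by rcases W_sq i' a with h3 | h3 <;> rw [h3] <;> norm_num
      rcases h2 n with h7 | h7 <;> rw [h7]
      · linear_combination -w.s n * W i a * q2
      · linear_combination w.s n * W i a * he - w.s n * W i b * q1
    have h1 : B x (2 ^ 0 * h) i - e * B x (2 ^ 0 * h) i' = 0 :=
      zero_of_double hd (g := fun n => B x (2 ^ n * h) i - e * B x (2 ^ n * h) i')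
        (fun n => ?_) (fun n => ?_) 0
    · rw [pow_zero, one_mul] at h1
      linear_combination h1
    · have e1 : 2 ^ (n + 1) * h = 2 * (2 ^ n * h) := by ring
      simp only [e1, B_double hr2 hx (orbit_ne hr2 hh n), hs]
      ring
    · simp only [orbit_add hr2]

end

end Pool.Agent.Helper44.KC
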