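import Pool.Agent.Helper44.KC.WordOf
import Pool.Agent.Helper41.KW.Word

/-!
# Ten residues with odd heights: the word of an orbit, indexed by the sets of three symbols
-/

set_option autoImplicit false

open Finset

namespace Pool.Agent.Helper44.KC

open Pool.Agent.Helper41.KW (C sg neg)

/-- the coefficient of the splitting with index `i` in the set `w` -/
def co (w : Fin 6 → Bool) (i : Fin 10) : ℤ :=
  (if ∀ a, w a = decide (W i a = 1) then 1 else 0) - (if ∀ a, w a = decide (W i a = -1) then 1 else 0)

theorem co_neg : ∀ (i : Fin 10) (w : Fin 6 → Bool), co (neg w) i = -co w i := by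
  intro i w
  have h1 : (∀ a, neg w a = decide (W i a = 1)) ↔ ∀ a, w a = decide (W i a = -1) := by
    refine forall_congr' fun a => ?_
    rcases W_sq i a with h | h <;> rw [h] <;> cases hw : w a <;> simp [neg, hw]
  have h2 : (∀ a, neg w a = decide (W i a = -1)) ↔ ∀ a, w a = decide (W i a = 1) := by
    refine forall_congr' fun a => ?_
    rcases W_sq i a with h | h <;> rw [h] <;> cases hw : w a <;> simp [neg, hw]
  simp only [co, h1, h2]
  ring

theorem co_row : ∀ (x : Fin 6) (i j : Fin 10), co (row x i) j = if i = j then W i x else 0 := by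
  decide +kernel

theorem C_row : ∀ w ∈ C, ∃ (i : Fin 10) (x : Fin 6), w = row x i := by
  decide +kernel

theorem sg_row : ∀ (x : Fin 6) (i : Fin 10) (a : Fin 6), sg (row x i) a = W i x * W i a := by
  decide +kernel

theorem C_filter : ∀ x : Fin 6, C.filter (fun w => w x = true) = univ.image (row x) := by
  decide +kernel

theorem C_eq : C = univ.image (row 0) ∪ univ.image (fun i => neg (row 0 i)) := by
  decide +kernel

theorem C_disjoint : Disjoint (univ.image (row 0)) (univ.image (fun i => neg (row 0 i))) := by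
  decide +kernel

theorem neg_row_injective : Function.Injective fun i => neg (row 0 i) := by decide +kernel

/-- a function of ten splittings as a function of the sets -/
def ext (f : Fin 10 → ℤ) (w : Fin 6 → Bool) : ℤ := ∑ i, co w i * f i

theorem ext_neg (f : Fin 10 → ℤ) (w : Fin 6 → Bool) : ext f (neg w) = -ext f w := by
  simp only [ext, co_neg, neg_mul, sum_neg_distrib]

theorem ext_row (f : Fin 10 → ℤ) (x : Fin 6) (i : Fin 10) : ext f (row x i) = W i x * f i := by
  simp only [ext, co_row]
  rw [sum_eq_single i]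
  · rw [if_pos rfl]
  · intro b _ hb
    rw [if_neg (fun h => hb h.symm), zero_mul]
  · intro h
    exact absurd (mem_univ _) h

theorem card_pair (f : Fin 10 → ℤ) (x : Fin 6) :
    (C.filter fun w => w x = true ∧ ext f w < 0).card = #{i : Fin 10 | W i x * f i < 0} := by
  rw [← filter_filter, C_filter, filter_image, card_image_of_injective _ (row_injective x)]
  congr 1
  refine filter_congr fun i _ => ?_
  rw [ext_row]

theorem card_trip (f : Fin 10 → ℤ) {M : ℤ} (hM : 0 < M) :
    (C.filter fun w => M < ext f w).card = #{i : Fin 10 | M < |f i|} := by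
  rw [C_eq, filter_union, card_union_of_disjoint
    (disjoint_filter_filter C_disjoint), filter_image, filter_image,
    card_image_of_injective _ (row_injective 0), card_image_of_injective _ neg_row_injective,
    ← card_union_of_disjoint]
  · congr 1
    rw [← filter_or]
    refine filter_congr fun i _ => ?_
    rw [ext_neg, ext_row, lt_abs]
    rcases W_sq i 0 with h | h <;> rw [h]
    · simp
    · simp [or_comm]
  · rw [disjoint_filter]
    intro i _ h1 h2
    rw [ext_neg] at h2
    omega

section

variable {r : ℕ} [hr : Fact r.Prime] {x : Fin 10 → ZMod r}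

theorem add_eq_zero_of_triple (hx : Odds x) {u v w : ZMod r} {i : Fin 10}
    (h : |B x u i + B x v i + B x w i| = r) : u + v + w = 0 := by
  by_contra huv
  have h0 : (r : ℤ) ≥ 0 := by positivity
  have h1 : (u * x i).val + (v * x i).val + (w * x i).val = r ∨
      (u * x i).val + (v * x i).val + (w * x i).val = 2 * r := by
    rcases (abs_eq h0).1 h with h | h
    · left
      simp only [B] at h
      omega
    · right
      simp only [B] at h
      omega
  have h2 : (u + v + w) * x i = 0 := by
    have e : (u + v + w) * x i = (((u * x i).val + (v * x i).val + (w * x i).val : ℕ) : ZMod r) := by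
      push_cast
      rw [ZMod.natCast_zmod_val, ZMod.natCast_zmod_val, ZMod.natCast_zmod_val]
      ring
    rw [e]
    rcases h1 with h1 | h1 <;> rw [h1]
    · exact ZMod.natCast_self r
    · rw [Nat.cast_mul, ZMod.natCast_self, mul_zero]
  exact mul_ne_zero huv (hx.ne i) h2

/-- The word of an orbit on which the forms vanish. -/
theorem wordK_of (hr2 : r ≠ 2) (hx : Odds x) {h : ZMod r} (hh : h ≠ 0)
    (hD : ∀ n j, D x (2 ^ n * h) j = 0) :
    ∃ w : Pool.Agent.Helper41.KW.Word, ∀ n i, (B x (2 ^ n * h) i).sign = w.s n * W i (w.i n) := by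
  obtain ⟨s, p, h1, h2, h3, h4⟩ := exists_symbols hr2 hx hh hD
  have hr1 := hr.out.one_lt
  have hd : 0 < r - 1 := by omega
  have hr0 : (0 : ℤ) < r := by exact_mod_cast hr.out.pos
  have hne := orbit_ne hr2 hh
  have hsg : ∀ {e : ℤ}, (e = 1 ∨ e = -1) → ∀ n, (e : ZMod r) * (2 ^ n * h) ≠ 0 := by
    intro e he n
    rcases he with rfl | rfl
    · simpa using hne n
    · simpa using hne n
  have e2 : ∀ (a b : ℕ) (e : ℤ), (e = 1 ∨ e = -1) → ∀ w,
      ext (B x (2 ^ a * h)) w + e * ext (B x (2 ^ b * h)) w =
        ext (fun i => B x (2 ^ a * h) i + B x ((e : ZMod r) * (2 ^ b * h)) i) w := by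
    intro a b e he w
    simp only [ext]
    rw [mul_sum, ← sum_add_distrib]
    refine sum_congr rfl fun i _ => ?_
    rw [B_sign hx (hne b) i he]
    ring
  have e3 : ∀ (a b c : ℕ) (e f : ℤ), (e = 1 ∨ e = -1) → (f = 1 ∨ f = -1) → ∀ w,
      ext (B x (2 ^ a * h)) w + e * ext (B x (2 ^ b * h)) w + f * ext (B x (2 ^ c * h)) w =
        ext (fun i => B x (2 ^ a * h) i + B x ((e : ZMod r) * (2 ^ b * h)) i +
          B x ((f : ZMod r) * (2 ^ c * h)) i) w := by
    intro a b c e f he hf w
    rw [e2 a b e he]
    simp only [ext]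
    rw [mul_sum, ← sum_add_distrib]
    refine sum_congr rfl fun i _ => ?_
    rw [B_sign hx (hne c) i hf]
    ring
  refine ⟨⟨r, s, p, fun n => ext (B x (2 ^ n * h)), r - 1, h1, hd, h3,
    fun n w => ext_neg _ w, ?_, ?_, ?_, ?_, ?_⟩, h4⟩
  · intro n w hw
    obtain ⟨i, c, rfl⟩ := C_row w hw
    rw [ext_row, abs_mul]
    rcases W_sq i c with h5 | h5 <;> rw [h5] <;> simpa using B_lt hx (hne n) i
  · intro n w hw
    obtain ⟨i, c, rfl⟩ := C_row w hw
    have e1 : 2 ^ (n + 1) * h = 2 * (2 ^ n * h) := by ring
    rw [ext_row, ext_row, sg_row, e1, B_double hr2 hx (hne n), h4]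
    ring
  · intro c a b e he
    simp only [e2 a b e he]
    rw [card_pair]
    by_cases h0 : 2 ^ a * h + (e : ZMod r) * (2 ^ b * h) = 0
    · rw [filter_false_of_mem]
      · exact Even.zero
      · intro i _
        rw [pair_zero hx (hne a) i h0, mul_zero]
        exact lt_irrefl 0
    · exact odd_card_flip c (fun i => B x (2 ^ a * h) i + B x ((e : ZMod r) * (2 ^ b * h)) i)
        (fun i h5 => h0 (add_eq_zero_of_pair hx h5)) (odd_pair hx (hne a) (hsg he b) h0)
  · intro a b t e f he hf
    simp only [e3 a b t e f he hf]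
    rw [card_trip _ hr0]
    by_cases h0 : 2 ^ a * h + (e : ZMod r) * (2 ^ b * h) + (f : ZMod r) * (2 ^ t * h) = 0
    · rw [filter_false_of_mem]
      · exact Even.zero
      · intro i _
        rw [triple_zero hx (hne a) h0 i (hsg he b) (hsg hf t)]
        exact lt_irrefl _
    · exact even_triple hx (hne a) (hsg he b) (hsg hf t) h0
  · intro a b t e f he hf hM w hw
    obtain ⟨v, hv, hv1⟩ := hM
    rw [e3 a b t e f he hf] at hv1 ⊢
    obtain ⟨i, c, rfl⟩ := C_row v hv
    obtain ⟨i', c', rfl⟩ := C_row w hw
    rw [ext_row] at hv1 ⊢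
    have h5 : |B x (2 ^ a * h) i + B x ((e : ZMod r) * (2 ^ b * h)) i +
        B x ((f : ZMod r) * (2 ^ t * h)) i| = r := by
      have h6 := congrArg abs hv1
      rw [abs_mul, abs_of_pos hr0] at h6
      rcases W_sq i c with h7 | h7 <;> rw [h7] at h6 <;> simpa using h6
    have h6 := triple_zero hx (hne a) (add_eq_zero_of_triple hx h5) i' (hsg he b) (hsg hf t)
    rw [abs_mul]
    rcases W_sq i' c' with h7 | h7 <;> rw [h7] <;> simpa using h6

end

end Pool.Agent.Helper44.KC
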