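import Pool.Agent.Helper44.KC.Dict

/-!
# Ten residues with odd heights: the word of an orbit
-/

set_option autoImplicit false

open Finset

namespace Pool.Agent.Helper44.KC

section

variable {r : ℕ} [hr : Fact r.Prime] {x : Fin 10 → ZMod r}

theorem B_double (hr2 : r ≠ 2) (hx : Odds x) {h : ZMod r} (hh : h ≠ 0) (i : Fin 10) :
    B x (2 * h) i = 2 * B x h i - r * (B x h i).sign := by
  rcases B_two hx hh i with ⟨h1, h2⟩ | ⟨h1, h2⟩ | h1
  · rw [h2, Int.sign_eq_one_of_pos h1]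
    ring
  · rw [h2, Int.sign_eq_neg_one_of_neg h1]
    ring
  · exact absurd h1 (B_ne hr2 h i)

theorem sign_B (hr2 : r ≠ 2) (h : ZMod r) (i : Fin 10) :
    (B x h i).sign = 1 ∨ (B x h i).sign = -1 := by
  rcases lt_trichotomy (B x h i) 0 with h1 | h1 | h1
  · exact Or.inr (Int.sign_eq_neg_one_of_neg h1)
  · exact absurd h1 (B_ne hr2 h i)
  · exact Or.inl (Int.sign_eq_one_of_pos h1)

/-- where the forms vanish twice the signs are the signs of a symbol -/
theorem dict_of (hr2 : r ≠ 2) (hx : Odds x) {h : ZMod r} (hh : h ≠ 0) (h1 : ∀ j, D x h j = 0)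
    (h2 : ∀ j, D x (2 * h) j = 0) :
    ∃ (s : ℤ) (p : Fin 6), (s = 1 ∨ s = -1) ∧ ∀ i, (B x h i).sign = s * W i p := by
  refine dict _ (sign_B hr2 h) fun j => ?_
  have e : D x (2 * h) j = 2 * D x h j - r * ∑ i, E j i * (B x h i).sign := by
    rw [D, D, mul_sum, mul_sum, ← sum_sub_distrib]
    refine sum_congr rfl fun i _ => ?_
    rw [B_double hr2 hx hh]
    ring
  rw [h1, h2] at e
  have hr0 : (r : ℤ) ≠ 0 := by exact_mod_cast hr.out.ne_zero
  have e2 : (r : ℤ) * ∑ i, E j i * (B x h i).sign = 0 := by linarith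
  exact (mul_eq_zero.1 e2).resolve_left hr0

theorem two_ne (hr2 : r ≠ 2) : (2 : ZMod r) ≠ 0 := by
  intro h
  have h1 : ((2 : ℕ) : ZMod r) = 0 := by exact_mod_cast h
  rw [ZMod.natCast_eq_zero_iff] at h1
  exact hr2 ((Nat.prime_dvd_prime_iff_eq hr.out Nat.prime_two).1 h1)

theorem orbit_ne (hr2 : r ≠ 2) {h : ZMod r} (hh : h ≠ 0) (n : ℕ) : 2 ^ n * h ≠ 0 :=
  mul_ne_zero (pow_ne_zero n (two_ne hr2)) hh

theorem orbit_add (hr2 : r ≠ 2) (h : ZMod r) (n : ℕ) : 2 ^ (n + (r - 1)) * h = 2 ^ n * h := by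
  rw [pow_add, ZMod.pow_card_sub_one_eq_one (two_ne hr2), mul_one]

/-- the signs and the symbols of an orbit -/
theorem exists_symbols (hr2 : r ≠ 2) (hx : Odds x) {h : ZMod r} (hh : h ≠ 0)
    (hD : ∀ n j, D x (2 ^ n * h) j = 0) :
    ∃ (s : ℕ → ℤ) (p : ℕ → Fin 6), (∀ n, s n = 1 ∨ s n = -1) ∧ (∀ n, s (n + (r - 1)) = s n) ∧
      (∀ n, p (n + (r - 1)) = p n) ∧ ∀ n i, (B x (2 ^ n * h) i).sign = s n * W i (p n) := by
  have key : ∀ y : ZMod r, ∃ (s : ℤ) (p : Fin 6), (s = 1 ∨ s = -1) ∧ (y ≠ 0 → (∀ j, D x y j = 0) →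
      (∀ j, D x (2 * y) j = 0) → ∀ i, (B x y i).sign = s * W i p) := by
    intro y
    by_cases h0 : y ≠ 0 ∧ (∀ j, D x y j = 0) ∧ (∀ j, D x (2 * y) j = 0)
    · obtain ⟨s, p, h1, h2⟩ := dict_of hr2 hx h0.1 h0.2.1 h0.2.2
      exact ⟨s, p, h1, fun _ _ _ => h2⟩
    · exact ⟨1, 0, Or.inl rfl, fun a b c => absurd ⟨a, b, c⟩ h0⟩
  choose S P hS hP using key
  refine ⟨fun n => S (2 ^ n * h), fun n => P (2 ^ n * h), fun n => hS _, fun n => ?_, fun n => ?_,
    fun n i => hP _ (orbit_ne hr2 hh n) (hD n) (fun j => ?_) i⟩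
  · exact congrArg S (orbit_add hr2 h n)
  · exact congrArg P (orbit_add hr2 h n)
  · have e : 2 * (2 ^ n * h) = 2 ^ (n + 1) * h := by ring
    rw [e]
    exact hD (n + 1) j

/-- a sequence which doubles and is periodic is zero -/
theorem zero_of_double {g : ℕ → ℤ} {d : ℕ} (hd : 0 < d) (h1 : ∀ n, g (n + 1) = 2 * g n)
    (h2 : ∀ n, g (n + d) = g n) (n : ℕ) : g n = 0 := by
  have h3 : ∀ m, g (n + m) = 2 ^ m * g n := by
    intro m
    induction m with
    | zero => simp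
    | succ m ih =>
      rw [← add_assoc, h1, ih, pow_succ]
      ring
  have h4 := h3 d
  rw [h2] at h4
  have h5 : (1 : ℤ) < 2 ^ d := one_lt_pow₀ (by norm_num) (by omega)
  have h6 : ((2 : ℤ) ^ d - 1) * g n = 0 := by linear_combination -h4
  exact (mul_eq_zero.1 h6).resolve_left (by omega)

theorem odd_card_flip (x : Fin 6) (Y : Fin 10 → ℤ) (hY : ∀ i, Y i ≠ 0)
    (h : Odd #{i : Fin 10 | Y i < 0}) : Even #{i : Fin 10 | W i x * Y i < 0} := by
  have h1 : ∀ i, (((if W i x * Y i < 0 then 1 else 0) + (if Y i < 0 then 1 else 0) +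
      (if W i x = -1 then 1 else 0) : ℕ) : ZMod 2) = 0 := by
    intro i
    rcases W_sq i x with h2 | h2 <;> rw [h2] <;> rcases lt_or_gt_of_ne (hY i) with h3 | h3
    · rw [if_pos (by linarith), if_pos h3, if_neg (by norm_num)]
      rfl
    · rw [if_neg (by linarith), if_neg (by linarith), if_neg (by norm_num)]
      rfl
    · rw [if_neg (by linarith), if_pos h3, if_pos rfl]
      rfl
    · rw [if_pos (by linarith), if_neg (by linarith), if_pos rfl]
      rfl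
  have h2 : ((#{i : Fin 10 | W i x * Y i < 0} + #{i : Fin 10 | Y i < 0} +
      #{i : Fin 10 | W i x = -1} : ℕ) : ZMod 2) = 0 := by
    rw [card_filter, card_filter, card_filter, ← sum_add_distrib, ← sum_add_distrib, Nat.cast_sum,
      sum_congr rfl fun i _ => h1 i]
    rfl
  rw [W_five, ZMod.natCast_eq_zero_iff_even] at h2
  have h3 : Odd (5 : ℕ) := by decide
  rw [Nat.even_add, Nat.even_add] at h2
  have h4 : ¬ Even #{i : Fin 10 | Y i < 0} := Nat.not_even_iff_odd.2 h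
  have h5 : ¬ Even 5 := by decide
  tauto

end

end Pool.Agent.Helper44.KC
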